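import Mathlib
import Pool.Agent.H47.Haight

/-- A set of positive reals with full difference set whose image under 2x - y is null. -/
theorem Pool.Agent.Results.MP_0f2923_nt.NullImage.result :
    ∃ E : Set ℝ, E ⊆ Set.Ioi 0 ∧
      {z | ∃ x ∈ E, ∃ y ∈ E, z = x - y} = Set.univ ∧
      MeasureTheory.volume {z | ∃ x ∈ E, ∃ y ∈ E, z = 2 * x - y} = 0 := by
  obtain ⟨E, h1, h2, h3⟩ := Pool.Agent.H47.Haight.main
  exact ⟨E, h1, Set.eq_univ_of_forall h2, h3⟩
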